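import Pool.Agent.HP42.SQ.Fin2
import Pool.Agent.HP42.SQ.Exact3
import Pool.Agent.HP42.UF.Fin
import Pool.Agent.HP42.UF.Low

/-!
# The abc inequality by the square part of the product

For a positive integer `n` let `T(n)` be the set of the abc triples (of whatever height) for which
`n ^ 2` is the largest square dividing `a b c`.  Every triple lies in exactly one `T(n)` and every
`T(n)` is infinite.  Outside a set of `n` with at most `C N ^ (1 - 1/2000)` elements up to `N`, all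
the triples of `T(n)` satisfy `c < rad (a b c) ^ (1 - 1/2000)`; in particular none of them is an
abc hit.  For a positive proportion of the `n` some triple of `T(n)` has `c > rad (a b c) ^ (3/4)`.
Outside a set with at most `C N ^ (1 - ε)` elements, all the triples of `T(n)` satisfy
`rad (a b c) > (a b c) ^ (1/2 - ε)` and `c < rad (a b c) ^ (1 + 3 ε)`.
The input is a bound for the number of the abc triples of all heights with `n ^ k ∣ a b c` and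
`rad (a b c / n ^ k) ≤ Y` for some `n ≤ N`, sharp for `k = 2` and `Y ≤ N`.
-/

set_option autoImplicit false

namespace Pool.Agent.Results.MP_7aad9f_nt.AbcBySquarePart

/-- the product of the primes dividing `n` -/
def radical (n : ℕ) : ℕ := ∏ p ∈ n.primeFactors, p

/-- `(a, b, c)` is an abc triple: positive integers, `a + b = c`, `a` and `b` coprime -/
def Triple (a b c : ℕ) : Prop := 0 < a ∧ 0 < b ∧ a + b = c ∧ Nat.gcd a b = 1

/-- the abc triples whose product is `n ^ 2` times a squarefree integer, that is, for which `n ^ 2`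
is the largest square dividing `a b c` -/
def squarePart (n : ℕ) : Set (ℕ × ℕ × ℕ) :=
  {t | Triple t.1 t.2.1 t.2.2 ∧ ∃ m : ℕ, Squarefree m ∧ t.1 * t.2.1 * t.2.2 = n ^ 2 * m}

/-- the abc inequality with `ε` holds for all triples with square part `n ^ 2` -/
def AbcAt (ε : ℝ) (n : ℕ) : Prop :=
  ∀ t ∈ squarePart n,
    ((t.1 * t.2.1 * t.2.2 : ℕ) : ℝ) ^ (1 / 2 - ε) < (radical (t.1 * t.2.1 * t.2.2) : ℝ) ∧
    (t.2.2 : ℝ) < (radical (t.1 * t.2.1 * t.2.2) : ℝ) ^ (1 + 3 * ε)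

/-- all triples with square part `n ^ 2` satisfy `c < rad (a b c) ^ (1 - 1/2000)` -/
def NoHit (n : ℕ) : Prop :=
  ∀ t ∈ squarePart n,
    (t.2.2 : ℝ) < (radical (t.1 * t.2.1 * t.2.2) : ℝ) ^ (1 - 1 / 2000 : ℝ)

/-- some triple with square part `n ^ 2` satisfies `c > rad (a b c) ^ (3/4)` -/
def Close (n : ℕ) : Prop :=
  ∃ t ∈ squarePart n, (radical (t.1 * t.2.1 * t.2.2) : ℝ) ^ (3 / 4 : ℝ) < (t.2.2 : ℝ)

/-- the abc triples (of whatever height) with `n ^ k ∣ a b c` and `rad (a b c / n ^ k) ≤ Y` for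
some positive `n ≤ N` -/
def triples (k N : ℕ) (Y : ℝ) : Set (ℕ × ℕ × ℕ) :=
  {t | Triple t.1 t.2.1 t.2.2 ∧ ∃ n : ℕ, 1 ≤ n ∧ n ≤ N ∧ n ^ k ∣ t.1 * t.2.1 * t.2.2 ∧
    (radical (t.1 * t.2.1 * t.2.2 / n ^ k) : ℝ) ≤ Y}

/-- **Main theorem.** (1) For all but `C N ^ (1 - 1/2000)` of the positive integers `n ≤ N`, all
abc triples with square part `n ^ 2` satisfy `c < rad (a b c) ^ (1 - 1/2000)`. (2) For a positive
proportion of the `n` one of them has `c > rad (a b c) ^ (3/4)`. (3) For `0 < ε ≤ 1/8`, for all but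
`C N ^ (1 - ε)` of the `n ≤ N`, all of them satisfy the abc inequality with `ε`. (4) Every positive
integer occurs, for infinitely many triples. (5) A count of triples of all heights. (6) It is sharp
for `k = 2`. -/
theorem result :
    (∃ C : ℝ, ∀ N : ℕ, 1 ≤ N → (({n : ℕ | 1 ≤ n ∧ n ≤ N ∧ ¬ NoHit n}.ncard : ℕ) : ℝ) ≤
      C * (N : ℝ) ^ (1 - 1 / 2000 : ℝ)) ∧
    (∃ N₀ : ℕ, ∀ N : ℕ, N₀ ≤ N →
      (N : ℝ) / 400 ≤ (({n : ℕ | 1 ≤ n ∧ n ≤ N ∧ Close n}.ncard : ℕ) : ℝ)) ∧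
    (∀ ε : ℝ, 0 < ε → ε ≤ 1 / 8 → ∃ C : ℝ, ∀ N : ℕ, 1 ≤ N →
      (({n : ℕ | 1 ≤ n ∧ n ≤ N ∧ ¬ AbcAt ε n}.ncard : ℕ) : ℝ) ≤ C * (N : ℝ) ^ (1 - ε)) ∧
    (∀ n : ℕ, 1 ≤ n → (squarePart n).Infinite) ∧
    (∀ k : ℕ, 2 ≤ k → ∀ ε : ℝ, 0 < ε → ∃ C : ℝ, ∀ N : ℕ, 1 ≤ N → ∀ Y : ℝ, 1 ≤ Y →
      (triples k N Y).Finite ∧ (((triples k N Y).ncard : ℕ) : ℝ) ≤
        C * ((N : ℝ) * Y) ^ ε * (Y + (N : ℝ) ^ (1 / 3 : ℝ) * Y ^ (2 / 3 : ℝ))) ∧
    ∀ N : ℕ, ∀ Y : ℝ, 10 ^ 40 ≤ Y → Y ≤ N →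
      10 ^ (-27 : ℝ) * ((N : ℝ) ^ (1 / 3 : ℝ) * Y ^ (2 / 3 : ℝ)) / (Real.log N) ^ 4 ≤
        (((triples 2 N Y).ncard : ℕ) : ℝ) := by
  classical
  refine ⟨?_, ?_, fun ε hε hε1 => ?_, fun n hn => ?_, fun k hk ε hε => ?_, fun N Y hY hYN => ?_⟩
  · obtain ⟨C, -, h⟩ := Pool.Agent.HP42.UF.beyond
    refine ⟨C, fun N hN => ?_⟩
    refine (Pool.Agent.HP42.SQ.set_bound (B := C * (N : ℝ) ^ (1 - 1 / 2000 : ℝ))
      fun F hF => ?_).2
    refine h N hN F fun n hn => ?_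
    obtain ⟨n1, n2, n3⟩ := hF n hn
    refine ⟨n1, n2, ?_⟩
    by_contra hcon
    apply n3
    rintro ⟨a, b, c⟩ ⟨ht, m, hm, hd⟩
    by_contra hle
    exact hcon ⟨a, b, c, m, ht, hd, hm, not_lt.1 hle⟩
  · obtain ⟨N₀, h⟩ := Pool.Agent.HP42.UF.proportion
    refine ⟨N₀, fun N hN => ?_⟩
    have hfin : ({n : ℕ | 1 ≤ n ∧ n ≤ N ∧ Close n}).Finite :=
      (Set.finite_Icc 1 N).subset fun n hn => ⟨hn.1, hn.2.1⟩
    have h1 := h N hN hfin.toFinset fun n hn hnN hb => by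
      obtain ⟨b, m, hb0, hs, he, hm, hr⟩ := hb
      rw [Set.Finite.mem_toFinset]
      exact ⟨hn, hnN, (1, b, n ^ 3), ⟨⟨one_pos, hb0, hs, Nat.gcd_one_left b⟩, m, hm, he⟩, hr⟩
    rwa [← Set.ncard_eq_toFinset_card _ hfin] at h1
  · obtain ⟨C, -, h⟩ := Pool.Agent.HP42.SQ.abc_square_usual ε hε hε1
    refine ⟨C, fun N hN => ?_⟩
    refine (Pool.Agent.HP42.SQ.set_bound (B := C * (N : ℝ) ^ (1 - ε)) fun F hF => ?_).2
    refine h N hN F fun n hn => ?_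
    obtain ⟨n1, n2, n3⟩ := hF n hn
    refine ⟨n1, n2, ?_⟩
    by_contra hcon
    apply n3
    rintro ⟨a, b, c⟩ ⟨ht, m, hm, hd⟩
    by_contra hle
    exact hcon ⟨a, b, c, m, ht, hd, hm, hle⟩
  · refine Set.infinite_of_not_bddAbove ?_ |>.of_image (fun t : ℕ × ℕ × ℕ => t.2.2)
    rintro ⟨K, hK⟩
    obtain ⟨a, b, c, m, ht, hd, hm, hc⟩ := Pool.Agent.HP42.SQ.exists_exact n hn K
    have := hK (Set.mem_image_of_mem (fun t : ℕ × ℕ × ℕ => t.2.2)
      (show (a, b, c) ∈ squarePart n from ⟨ht, m, hm, hd⟩))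
    exact absurd hc (not_lt.2 this)
  · obtain ⟨C, h⟩ := Pool.Agent.HP42.SQ.upper hk ε hε
    exact ⟨C, fun N hN Y hY => h N hN Y hY⟩
  · have h := Pool.Agent.HP42.SQ.lower N Y hY hYN
    refine h.trans ?_
    have hYr : (1 : ℝ) ≤ Y := le_trans (by norm_num) hY
    have hN1 : 1 ≤ N := by
      have : (1 : ℝ) ≤ N := hYr.trans hYN
      exact_mod_cast this
    obtain ⟨C, h2⟩ := Pool.Agent.HP42.SQ.upper (le_refl 2) 1 one_pos
    have hfin : (triples 2 N Y).Finite := (h2 N hN1 Y hYr).1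
    have hsub : Pool.Agent.HP42.SQ.utrip N Y ⊆ triples 2 N Y := by
      rintro t ⟨ht, n, n1, n2, n3, _, n5⟩
      exact ⟨ht, n, n1, n2, n3, n5⟩
    exact_mod_cast Set.ncard_le_ncard hsub hfin

end Pool.Agent.Results.MP_7aad9f_nt.AbcBySquarePart
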