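import Mathlib
import Pool.Agent.H34x.ES.Hits
import Pool.Agent.H34x.ES.Dense
import Pool.Agent.H47SS.E

set_option autoImplicit false

/-!
# The abc conjecture in every shape

Let `p, q, r ≥ 1`, let `α, β, γ > 0` with `α + β + γ > 1`, let `N ≥ 1` and `η > 0`. The triples of this
*shape* are the coprime triples `a + b = c` with

* `N ∣ a` and `a ≤ η c` (the triple is near the cusp `a = 0`, at infinity and at the primes
  dividing `N`),
* `a = A x ^ p`, `b = B y ^ q`, `c = C z ^ r` with `A R(x) ≤ c ^ α`, `B R(y) ≤ c ^ β`,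
  `C R(z) ≤ c ^ γ`. In particular `R(a) ≤ c ^ α`, `R(b) ≤ c ^ β`, `R(c) ≤ c ^ γ`.

The abc conjecture implies that there are only finitely many of them if `α + β + γ < 1`. We prove
that for `α + β + γ > 1` every abc triple can be mapped to a triple of this shape (with its height in
one of the windows `[Y i, (Y i) ^ (1 + δ)]`, where `Y i` is a sequence which grows at most like an
iterated power) without loss of quality. So the abc conjecture is equivalent to its restriction to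
the triples of this shape in these windows; and all known exceptional triples have analogues of
this shape.

The maps are compositions of a power map `(a, b, c) ↦ (a ^ m, c ^ m - a ^ m, c ^ m)`, of the `j`-map
`(a, b, c) ↦ (27 (a b c / 2) ^ 2, ((b - a) (2 a + b) (a + 2 b) / 2) ^ 2, (a ^ 2 + a b + b ^ 2) ^ 3)`, of
a second power map and of a Belyi map of Padé type: `x ^ (r1 + ri + 1) A(x) +
(1 - x) ^ (r0 + ri + 1) D(x) = B(x)` with `A`, `D`, `B` of degree `r0`, `r1`, `ri`.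

The last part is the theorem of helper47 on the Euclidean signatures `1 / p + 1 / q + 1 / r = 1`.
-/

namespace Pool.Agent.Results.MP_7aad9f_nt.AbcInEveryShape

open Filter

/-- the radical: the product of the primes dividing `n` -/
def R (n : ℕ) : ℕ := ∏ p ∈ n.primeFactors, p

/-- the coprime triples of positive integers with `a + b = c` -/
def Triple (a b c : ℕ) : Prop := 0 < a ∧ 0 < b ∧ Nat.Coprime a b ∧ a + b = c

/-- the abc conjecture for the triples with the property `T`: for every `ε > 0` there is `κ` such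
that `c ≤ κ R (a b c) ^ (1 + ε)` for all coprime positive integers `a`, `b`, `c` with `a + b = c`
and `T a b c` -/
def AbcFor (T : ℕ → ℕ → ℕ → Prop) : Prop :=
  ∀ ε : ℝ, 0 < ε → ∃ κ : ℝ, ∀ a b c : ℕ, Triple a b c → T a b c →
    (c : ℝ) ≤ κ * (R (a * b * c) : ℝ) ^ (1 + ε)

/-- `n = A x ^ p` with `A R(x) ≤ B` -/
def AlmostPower (p : ℕ) (B : ℝ) (n : ℕ) : Prop := ∃ A x : ℕ, n = A * x ^ p ∧ (A * R x : ℝ) ≤ B

/-- `N ∣ a`, `a ≤ η c` and `a = A x ^ p`, `b = B y ^ q`, `c = C z ^ r` with `A R(x) ≤ c ^ α`,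
`B R(y) ≤ c ^ β`, `C R(z) ≤ c ^ γ` -/
structure InShape (p q r : ℕ) (α β γ : ℝ) (N : ℕ) (η : ℝ) (a b c : ℕ) : Prop where
  fst : AlmostPower p ((c : ℝ) ^ α) a
  snd : AlmostPower q ((c : ℝ) ^ β) b
  trd : AlmostPower r ((c : ℝ) ^ γ) c
  dvd : N ∣ a
  pos : (a : ℝ) ≤ η * c

/-- `c` is in one of the windows `[Y i, (Y i) ^ (1 + δ)]` -/
def InWindow (Y : ℕ → ℝ) (δ : ℝ) (c : ℕ) : Prop := ∃ i, Y i ≤ c ∧ (c : ℝ) ≤ (Y i) ^ (1 + δ)

/-- `N` divides `a b c` and `a`, `b`, `c` are, in some order, `α x ^ p`, `β y ^ q` and `γ z ^ r`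
with `α β γ ≤ c ^ δ` -/
def AlmostPowers (p q r N : ℕ) (δ : ℝ) (a b c : ℕ) : Prop :=
  N ∣ a * b * c ∧ ∃ α β γ x y z : ℕ,
    ({a, b, c} : Multiset ℕ) = {α * x ^ p, β * y ^ q, γ * z ^ r} ∧
      ((α * β * γ : ℕ) : ℝ) ≤ (c : ℝ) ^ δ

/-- **Main theorem.** -/
theorem result :
    (∀ (p q r : ℕ) (_ : 1 ≤ p) (_ : 1 ≤ q) (_ : 1 ≤ r) (α β γ : ℝ) (_ : 0 < α) (_ : 0 < β)
      (_ : 0 < γ) (_ : 1 < α + β + γ) (N : ℕ) (_ : 1 ≤ N) (η : ℝ) (_ : 0 < η) (δ : ℝ) (_ : 0 < δ)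
      (ρ : ℕ) (Y : ℕ → ℝ) (_ : ∀ i, 1 < Y i) (_ : Tendsto Y atTop atTop)
      (_ : ∀ i, Y (i + 1) ≤ (Y i) ^ ρ),
      -- the equivalence
      (AbcFor (fun _ _ _ => True) ↔
        AbcFor fun a b c => InShape p q r α β γ N η a b c ∧ InWindow Y δ c) ∧
      -- every triple has an image of this shape, of the same quality
      (∃ (D : ℕ) (K : ℝ) (c₀ : ℕ), ∀ a b c : ℕ, Triple a b c → c₀ ≤ c → ∃ d a' b' c' : ℕ,
        1 ≤ d ∧ d ≤ D ∧ Triple a' b' c' ∧ InShape p q r α β γ N η a' b' c' ∧ InWindow Y δ c' ∧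
        (c : ℝ) ^ d ≤ K * c' ∧ (c' : ℝ) ≤ K * (c : ℝ) ^ d ∧
        (c : ℝ) * R (a' * b' * c') ≤ K * (c' * R (a * b * c))) ∧
      -- there are exceptional triples of this shape
      (∃ κ : ℝ, 0 < κ ∧ ∀ X : ℝ, ∃ a b c : ℕ, Triple a b c ∧ X < c ∧
        InShape p q r α β γ N η a b c ∧ InWindow Y δ c ∧
        (R (a * b * c) : ℝ) * Real.exp (κ * √(Real.log c) / Real.log (Real.log c)) < c) ∧
      -- there are hits of this shape in every interval `[y, K' y]`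
      (∀ M : ℝ, ∃ K' y₀ : ℝ, ∀ y : ℝ, y₀ ≤ y → ∃ a b c : ℕ, Triple a b c ∧
        InShape p q r α β γ N η a b c ∧ y ≤ c ∧ (c : ℝ) ≤ K' * y ∧ M * R (a * b * c) ≤ c)) ∧
    -- the Euclidean signatures
    (∀ (p q r : ℕ) (_ : 0 < p) (_ : 0 < q) (_ : 0 < r) (_ : (1 : ℚ) / p + 1 / q + 1 / r = 1)
      (N : ℕ) (_ : 1 ≤ N) (δ : ℝ) (_ : 0 < δ),
      AbcFor (fun _ _ _ => True) ↔ AbcFor (AlmostPowers p q r N δ)) := by
  have conv : ∀ T : ℕ → ℕ → ℕ → Prop, AbcFor T ↔ Pool.Agent.N746.Self.ABC T := by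
    intro T
    constructor
    · intro h ε hε
      obtain ⟨κ, hκ⟩ := h ε hε
      exact ⟨κ, fun a b c ha hb hab habc hT => hκ a b c ⟨ha, hb, hab, habc⟩ hT⟩
    · intro h ε hε
      obtain ⟨κ, hκ⟩ := h ε hε
      exact ⟨κ, fun a b c ht hT => hκ a b c ht.1 ht.2.1 ht.2.2.1 ht.2.2.2 hT⟩
  refine ⟨?_, ?_⟩
  · intro p q r hp hq hr α β γ hα hβ hγ hs N hN η hη δ hδ ρ Y hY hYt hYr
    have hshp : ∀ a b c : ℕ, Pool.Agent.H34x.ES.Shp p q r α β γ N η δ Y a b c →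
        InShape p q r α β γ N η a b c ∧ InWindow Y δ c :=
      fun a b c h => ⟨⟨h.ta, h.tb, h.tc, h.dvd, h.pos⟩, h.win⟩
    have hshp' : ∀ a b c : ℕ, InShape p q r α β γ N η a b c ∧ InWindow Y δ c →
        Pool.Agent.H34x.ES.Shp p q r α β γ N η δ Y a b c :=
      fun a b c h => ⟨h.1.fst, h.1.snd, h.1.trd, h.1.dvd, h.1.pos, h.2⟩
    obtain ⟨D, K, c₀, hK, hmap⟩ := Pool.Agent.H34x.ES.main_window p q r hp hq hr α β γ hα hβ hγ hs N
      hN η hη δ hδ ρ Y hY hYt hYr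
    refine ⟨?_, ?_, ?_, ?_⟩
    · rw [conv, conv]
      have h := Pool.Agent.H34x.ES.abc_shp p q r hp hq hr α β γ hα hβ hγ hs N hN η hη δ hδ ρ Y hY hYt
        hYr
      have e : (fun a b c => InShape p q r α β γ N η a b c ∧ InWindow Y δ c) =
          Pool.Agent.H34x.ES.Shp p q r α β γ N η δ Y := by
        funext a b c
        exact propext ⟨hshp' a b c, hshp a b c⟩
      rw [e]
      exact h.symm
    · refine ⟨D, K ^ 2, c₀, fun a b c ht hc => ?_⟩
      obtain ⟨d, a', b', c', hd1, hdD, hrel, hs'⟩ := hmap a b c ht.1 ht.2.1 ht.2.2.1 ht.2.2.2 hc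
      have hKK : K ≤ K ^ 2 := by nlinarith
      refine ⟨d, a', b', c', hd1, hdD, ⟨hrel.a0, hrel.b0, hrel.cop, hrel.sum⟩, (hshp _ _ _ hs').1,
        (hshp _ _ _ hs').2, hrel.low.trans ?_, hrel.up.trans ?_, hrel.quality hK hd1⟩
      · exact mul_le_mul_of_nonneg_right hKK (Nat.cast_nonneg _)
      · exact mul_le_mul_of_nonneg_right hKK (by positivity)
    · obtain ⟨κ, hκ, h⟩ := Pool.Agent.H34x.ES.merit_map D K c₀ hK _ hmap
      refine ⟨κ, hκ, fun X => ?_⟩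
      obtain ⟨a, b, c, ha, hb, hab, habc, hX, hs', hlt⟩ := h X
      exact ⟨a, b, c, ⟨ha, hb, hab, habc⟩, hX, (hshp _ _ _ hs').1, (hshp _ _ _ hs').2, hlt⟩
    · intro M
      obtain ⟨e, k, K₁, c₁, he, hk, hK₁, hmap₁⟩ := Pool.Agent.H34x.ES.main_map p q r hp hq hr α β γ
        hα hβ hγ hs N hN η hη 1
      obtain ⟨K', y₀, h⟩ := Pool.Agent.H34x.ES.hits_dense (e * (k * 1))
        (Nat.one_le_iff_ne_zero.2 (by positivity)) K₁ c₁ hK₁ (InShape p q r α β γ N η) (by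
          intro a b c ha hb hab habc hc
          obtain ⟨t, -, hj⟩ := hmap₁ a b c ha hb hab habc hc
          obtain ⟨a', b', c', hrel, -, -, h3, h4, h5, h6, h7⟩ := hj 1 le_rfl le_rfl
          exact ⟨a', b', c', hrel, ⟨h5, h6, h7, h3, h4⟩⟩) M
      refine ⟨K', y₀, fun y hy => ?_⟩
      obtain ⟨a, b, c, ha, hb, hab, habc, hs', h1, h2, h3⟩ := h y hy
      exact ⟨a, b, c, ⟨ha, hb, hab, habc⟩, hs', h1, h2, h3⟩
  · intro p q r hp hq hr hpqr N hN δ hδ
    rw [conv, conv]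
    exact (Pool.Agent.H47SS.main'' p q r N hp hq hr hpqr hN δ hδ).symm

end Pool.Agent.Results.MP_7aad9f_nt.AbcInEveryShape
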