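import Pool.Agent.Helper41x.Fr.Fin

/-!
# The number of abc triples of quality at least `M`, ordered by the radical: the second order term

The quality of a triple is `log c / log (rad (abc))`. All triples are ordered by the radical. For
`M > 1/3` the number of the triples of quality at least `M` and radical at most `X` is
`X ^ (1 - M) exp ((√(24 (3 M - 1)) + o(1)) √(log X / log log X))`: (1) for the triples with
`c ≤ X ^ A`, if `M < A < 1/2`, or if `M < 3/7` and `A` is arbitrary; (2) for the triples of all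
heights, if `M` is close to `1/3`.

Upper bound: windows of heights; `Pool.Agent.N362.QP.upu` (uniform second order bound for the number
of points of given height with small truncated counting function), the bounds for the exceptional
sets of the abc conjecture (`Pool.Agent.W221.ABC7.count_FxB`) for the triples of large height, and
`Pool.Agent.Y911.AB.upper_exc` for the triples of all heights. Lower bound:
`Pool.Agent.N432.QP.loj`.
-/

set_option autoImplicit false

namespace Pool.Agent.Results.MP_7aad9f_nt.QualityLawByRadical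

open Filter Topology

/-- the product of the primes dividing `n` -/
def radical (n : ℕ) : ℕ := ∏ p ∈ n.primeFactors, p

/-- the abc triples `(a, b, c)` with `rad (abc) ≤ X` and `c ≥ rad (abc) ^ M` -/
def triples (M X : ℝ) : Set (ℕ × ℕ × ℕ) :=
  {t | 0 < t.1 ∧ 0 < t.2.1 ∧ Nat.Coprime t.1 t.2.1 ∧ t.1 + t.2.1 = t.2.2 ∧
    (radical (t.1 * t.2.1 * t.2.2) : ℝ) ≤ X ∧
    (radical (t.1 * t.2.1 * t.2.2) : ℝ) ^ M ≤ (t.2.2 : ℝ)}

/-- `N X = X ^ (1 - M) exp ((√(24 (3 M - 1)) + o(1)) √(log X / log log X))` -/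
def Law (M : ℝ) (N : ℝ → ℕ) : Prop :=
  Tendsto (fun X : ℝ => (Real.log (N X : ℝ) - (1 - M) * Real.log X) /
    √(Real.log X / Real.log (Real.log X))) atTop (𝓝 √(24 * (3 * M - 1)))

/-- **The law.** -/
theorem result :
    (∀ M X : ℝ, (triples M X).Finite) ∧
    (∀ M A : ℝ, 1 / 3 < M → M < A → (A < 1 / 2 ∨ M < 3 / 7) →
      Law M fun X => {t | t ∈ triples M X ∧ (t.2.2 : ℝ) ≤ X ^ A}.ncard) ∧
    ∃ M₀ : ℝ, 1 / 3 < M₀ ∧ ∀ M : ℝ, 1 / 3 < M → M < M₀ → Law M fun X => (triples M X).ncard := by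
  have e1 : ∀ M X : ℝ, triples M X = Pool.Agent.Helper41x.Fr.Ea M X := by
    intro M X
    ext t
    exact ⟨fun h => ⟨⟨h.1, h.2.1, h.2.2.1, h.2.2.2.1⟩, h.2.2.2.2.1, h.2.2.2.2.2⟩,
      fun h => ⟨h.1.1, h.1.2.1, h.1.2.2.1, h.1.2.2.2, h.2.1, h.2.2⟩⟩
  have e2 : ∀ M A X : ℝ, {t | t ∈ triples M X ∧ (t.2.2 : ℝ) ≤ X ^ A} =
      Pool.Agent.Helper41x.Fr.Ex M X (X ^ A) := by
    intro M A X
    rw [e1]
    ext t
    exact ⟨fun h => ⟨h.1.1, h.1.2.1, h.1.2.2, h.2⟩, fun h => ⟨⟨h.1, h.2.1, h.2.2.1⟩, h.2.2.2⟩⟩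
  refine ⟨fun M X => ?_, fun M A hM hA h => ?_, ?_⟩
  · rw [e1]
    exact Pool.Agent.Helper41x.Fr.Ea_finite M X
  · unfold Law
    simp only [e2]
    rcases h with h | h
    · exact Pool.Agent.Helper41x.Fr.law' hM hA h
    · exact Pool.Agent.Helper41x.Fr.law hM h hA
  · unfold Law
    simp only [e1]
    exact Pool.Agent.Helper41x.Fr.lawA

end Pool.Agent.Results.MP_7aad9f_nt.QualityLawByRadical
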