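import Pool.Agent.H34x.MA.Dir4

/-!
# The abc triples with prescribed radicals near a real number

A coprime triple `a + b = c` of positive integers is a fraction `a / c` in lowest terms in `(0, 1)`
(then `b = c - a`). Let `α, β, γ ∈ (0, 1]` and consider the triples with `R(a) ≤ c ^ α`,
`R(b) ≤ c ^ β`, `R(c) ≤ c ^ γ`. For `α + β + γ < 1` the abc conjecture says that there are only
finitely many. We show that for `α + β + γ > 1` the theorem of Dirichlet and the theorem of Jarník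
and Besicovitch hold for these triples: up to an absolute constant every irrational number
`ξ ∈ (0, 1)` is approximated by infinitely many of them to within `c ^ (1 - α - β - γ)`, and for
every `τ > 0` the set of the `ξ` approximated to within `c ^ (-τ)` has Hausdorff dimension at least
`min (1, (α + β + γ - 1) / τ)`, with equality if `α + β + γ ≥ 2` or one of the three exponents is
`1`. With all exponents `1` these are the classical theorems for all fractions.
-/

set_option autoImplicit false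

namespace Pool.Agent.Results.MP_7aad9f_nt.RadicalsNearReals

open MeasureTheory

/-- the radical of `n`: the product of the primes dividing `n` -/
def R (n : ℕ) : ℕ := ∏ p ∈ n.primeFactors, p

/-- the coprime triples `a + b = c` of positive integers with `R(a) ≤ C c ^ α`, `R(b) ≤ C c ^ β` and
`R(c) ≤ C c ^ γ`, written `(a, c)` (so `b = c - a`) -/
def Triples (C α β γ : ℝ) : Set (ℕ × ℕ) :=
  {t | 0 < t.1 ∧ t.1 < t.2 ∧ Nat.Coprime t.1 t.2 ∧ (R t.1 : ℝ) ≤ C * (t.2 : ℝ) ^ α ∧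
    (R (t.2 - t.1) : ℝ) ≤ C * (t.2 : ℝ) ^ β ∧ (R t.2 : ℝ) ≤ C * (t.2 : ℝ) ^ γ}

/-- the real numbers `ξ` with `|ξ - a / c| ≤ C c ^ (-τ)` for infinitely many triples of
`Triples C α β γ` -/
def Approximable (C α β γ τ : ℝ) : Set ℝ :=
  {ξ | {t | t ∈ Triples C α β γ ∧ |ξ - (t.1 : ℝ) / t.2| ≤ C * (t.2 : ℝ) ^ (-τ)}.Infinite}

/-- **The abc triples with prescribed radicals near a real number.**
There is an absolute constant `C` such that for all `α, β, γ ∈ (0, 1]` with `α + β + γ > 1`: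
(1) every irrational `ξ ∈ (0, 1)` has infinitely many coprime triples `a + b = c` with
`R(a) ≤ C c ^ α`, `R(b) ≤ C c ^ β`, `R(c) ≤ C c ^ γ` and `|ξ - a / c| ≤ C c ^ (-(α + β + γ - 1))`.
(2) With all constants equal to `1`, for every `τ < α + β + γ - 1` every irrational
`ξ ∈ (0, 1)` is approximable of exponent `τ`, and also every rational `ξ ∈ (0, 1)` if `τ < 1`.
(3) With all constants equal to `1`, for every `τ > 0` the `ξ` approximable of exponent `τ` form a
set of Hausdorff dimension at least `min (1, (α + β + γ - 1) / τ)`, and exactly this number if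
`α + β + γ ≥ 2` or one of the exponents `α`, `β`, `γ` is `1`. -/
theorem result : ∃ C : ℝ, ∀ α β γ : ℝ, 0 < α → 0 < β → 0 < γ → α ≤ 1 → β ≤ 1 → γ ≤ 1 →
    1 < α + β + γ →
    (∀ ξ : ℝ, 0 < ξ → ξ < 1 → Irrational ξ → ξ ∈ Approximable C α β γ (α + β + γ - 1)) ∧
    (∀ ξ τ : ℝ, 0 < ξ → ξ < 1 → τ < α + β + γ - 1 → Irrational ξ ∨ τ < 1 →
      ξ ∈ Approximable 1 α β γ τ) ∧
    (∀ τ : ℝ, 0 < τ →
      ENNReal.ofReal (min 1 ((α + β + γ - 1) / τ)) ≤ dimH (Approximable 1 α β γ τ) ∧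
      ((2 ≤ α + β + γ ∨ α = 1 ∨ β = 1 ∨ γ = 1) →
        dimH (Approximable 1 α β γ τ) = ENNReal.ofReal (min 1 ((α + β + γ - 1) / τ)))) := by
  refine ⟨10 ^ 13, ?_⟩
  intro α β γ a1 a2 a3 b1 b2 b3 hs
  have eA : ∀ τ : ℝ, Approximable 1 α β γ τ =
      Pool.Agent.H34x.MA.WP (Pool.Agent.H34x.MA.Ap α β γ) τ := by
    intro τ
    unfold Approximable Triples Pool.Agent.H34x.MA.WP Pool.Agent.H34x.MA.Ap
    simp only [one_mul]
    rfl
  simp only [eA]
  refine ⟨?_, ?_, ?_⟩
  · intro ξ h0 h1 hξ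
    have h := Pool.Agent.H34x.MA.dirichlet_rad a1 a2 a3 b1 b2 b3 hs h0 h1 (Or.inl hξ)
    refine h.mono ?_
    rintro t ⟨k1, k2, k3, k4, k5, k6, k7⟩
    exact ⟨⟨k1, k2, k3, k4, k5, k6⟩, k7⟩
  · intro ξ τ h0 h1 hτ hξ
    exact Pool.Agent.H34x.MA.mem_WP a1 a2 a3 b1 b2 b3 hs h0 h1 hτ hξ
  · intro τ hτ
    exact ⟨Pool.Agent.H34x.MA.dim_ge a1 a2 a3 b1 b2 b3 hs hτ,
      fun hc => Pool.Agent.H34x.MA.dim_exact a1 a2 a3 b1 b2 b3 hs hτ hc⟩

end Pool.Agent.Results.MP_7aad9f_nt.RadicalsNearReals
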